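import Pool.Agent.N207.CF.Stm

/-!
# FIB: the product of the fibres lies in the fibre of the closure of the graph of the product
-/

set_option autoImplicit false

namespace Pool.Agent.N27.CF

open MvPolynomial

theorem fib : Pool.Agent.N207.CF.StmFib := by
  classical
  intro E X σ _ U f x a hx ha p hp
  have key : ∀ F : Finset E, ∀ z : E × X → ℂ, (∀ e, (fun j => z (e, j)) ∈ U e) →
      (∀ e ∈ F, (fun j => z (e, j)) = x e) →
      p.eval₂ (MvPolynomial.eval z)
        (fun q => if q.1 ∈ F then a q.1 q.2 else f q.1 q.2 fun j => z (q.1, j)) = 0 := by
    intro F
    induction F using Finset.induction_on with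
    | empty =>
      intro z hz _
      simpa using hp z hz
    | insert e0 F he0 ih =>
      intro z hz hzF
      let φ : MvPolynomial (E × X) ℂ →+* MvPolynomial X ℂ :=
        eval₂Hom C (fun r => if r.1 = e0 then MvPolynomial.X r.2 else C (z r))
      let g : E × σ → MvPolynomial σ (MvPolynomial X ℂ) := fun r =>
        if r.1 = e0 then MvPolynomial.X r.2
        else C (C (if r.1 ∈ F then a r.1 r.2 else f r.1 r.2 fun j => z (r.1, j)))
      have hev : ∀ (w : X → ℂ) (v : σ → ℂ),
          (p.eval₂ (C.comp φ) g).eval₂ (MvPolynomial.eval w) v =
          p.eval₂ (MvPolynomial.eval fun r : E × X => if r.1 = e0 then w r.2 else z r)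
            (fun r => if r.1 = e0 then v r.2
              else if r.1 ∈ F then a r.1 r.2 else f r.1 r.2 fun j => z (r.1, j)) := by
        intro w v
        have h1 : (eval₂Hom (MvPolynomial.eval w) v).comp (eval₂Hom (C.comp φ) g) =
            eval₂Hom (MvPolynomial.eval fun r : E × X => if r.1 = e0 then w r.2 else z r)
              (fun r => if r.1 = e0 then v r.2
                else if r.1 ∈ F then a r.1 r.2 else f r.1 r.2 fun j => z (r.1, j)) := by
          refine MvPolynomial.ringHom_ext' ?_ ?_
          · refine MvPolynomial.ringHom_ext ?_ ?_
            · intro c
              simp [φ]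
            · rintro ⟨e, j⟩
              by_cases h : e = e0
              · simp [φ, h]
              · simp [φ, h]
          · rintro ⟨e, i⟩
            by_cases h : e = e0
            · simp [g, h]
            · simp [g, h]
        exact congrArg (fun h : MvPolynomial (E × σ) (MvPolynomial (E × X) ℂ) →+* ℂ => h p) h1
      have h2 := ha e0 (p.eval₂ (C.comp φ) g) (fun w hw => ?_)
      · rw [hev] at h2
        have e1 : (fun r : E × X => if r.1 = e0 then x e0 r.2 else z r) = z := by
          funext r
          obtain ⟨e, j⟩ := r
          by_cases h : e = e0
          · subst h
            simp only [if_true]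
            exact (congrFun (hzF e (Finset.mem_insert_self e F)) j).symm
          · simp [h]
        rw [e1] at h2
        rw [← h2]
        congr 1
        funext r
        obtain ⟨e, i⟩ := r
        by_cases h : e = e0
        · subst h
          simp
        · simp [h]
      · rw [hev]
        have h3 := ih (fun r : E × X => if r.1 = e0 then w r.2 else z r) (fun e => ?_)
          (fun e he => ?_)
        · rw [← h3]
          congr 1
          funext r
          obtain ⟨e, i⟩ := r
          by_cases h : e = e0
          · subst h
            simp [he0]
          · simp [h]
        · by_cases h : e = e0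
          · subst h
            simpa using hw
          · simpa [h] using hz e
        · have h : e ≠ e0 := by
            rintro rfl
            exact he0 he
          simpa [h] using hzF e (Finset.mem_insert_of_mem he)
  have := Fintype.ofFinite E
  have h := key Finset.univ (fun q => x q.1 q.2) hx (fun e _ => rfl)
  simpa using h

end Pool.Agent.N27.CF
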