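import Pool.Agent.N783.CF.Stm

/-!
CF/LPL: few integers of `F` have a conjugate near a given number (helper27).
-/

set_option autoImplicit false

open Polynomial NumberField
open scoped Classical

namespace Pool.Agent.N27.CF

open Pool.Agent.N783.PF (Bd)
open Pool.Agent.N783.CF

theorem t_LPL : Pool.Agent.N783.PF.S_PTS → S_LPL := by
  intro hPTS F _ _ ε hε
  obtain ⟨-, C, hC, -, hcnt⟩ := hPTS F
  set d := Module.finrank ℚ F with hd
  have hcnt' : ∀ R : ℝ, 0 ≤ R → {a : 𝓞 F | Bd (a : F) R}.Finite ∧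
      (({a : 𝓞 F | Bd (a : F) R}.ncard : ℝ)) ≤ C * (R ^ d + 1) := by
    intro R hR
    have h := hcnt ⊤ 0 R top_ne_bot hR
    have e : {a : 𝓞 F | a - 0 ∈ (⊤ : Ideal (𝓞 F)) ∧ Bd (a : F) R} = {a : 𝓞 F | Bd (a : F) R} := by
      ext a
      simp
    rw [e, Ideal.absNorm_top, Nat.cast_one, div_one] at h
    exact h
  obtain ⟨K, hK⟩ := exists_nat_ge (2 * C * 2 ^ d / ε)
  have hK0 : (0 : ℝ) < K := lt_of_lt_of_le (by positivity) hK
  have hK1 : (1 : ℝ) ≤ K := by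
    have : 0 < K := by exact_mod_cast hK0
    exact_mod_cast this
  have hKe : 2 * C * 2 ^ d ≤ ε * K := by
    rw [div_le_iff₀ hε] at hK
    linarith
  refine ⟨1 / (4 * K), by positivity, 2 * K, fun R hR σ z => ?_⟩
  have hR1 : 1 ≤ R := by linarith
  set δ : ℝ := 1 / (4 * K) with hδ
  set A : Set (𝓞 F) := {a : 𝓞 F | Bd (a : F) R ∧ ‖σ (a : F) - z‖ < δ * R} with hA
  have hAf : A.Finite := (hcnt' R (by linarith)).1.subset fun a ha => ha.1
  refine ⟨hAf, ?_⟩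
  obtain ⟨hTf, hTc⟩ := hcnt' (2 * R) (by linarith)
  set m : ℕ := ⌈2 * δ * R⌉₊ with hm
  have hm1 : 2 * δ * R ≤ m := Nat.le_ceil _
  have hm2 : (m : ℝ) < 2 * δ * R + 1 := Nat.ceil_lt_add_one (by positivity)
  have hKm : (K : ℝ) * m ≤ R := by
    have h1 : (K : ℝ) * (2 * δ * R) = R / 2 := by
      rw [hδ]
      field_simp
      ring
    have h2 : (K : ℝ) * m ≤ K * (2 * δ * R + 1) := mul_le_mul_of_nonneg_left hm2.le hK0.le
    rw [mul_add, h1, mul_one] at h2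
    linarith
  set φ : 𝓞 F × Fin K → 𝓞 F := fun p => p.1 + ((((p.2 : ℕ) * m : ℕ)) : 𝓞 F) with hφ
  have hcoe : ∀ p : 𝓞 F × Fin K, ((φ p : 𝓞 F) : F) = (p.1 : F) + ((((p.2 : ℕ) * m : ℕ)) : F) := by
    intro p
    simp [hφ]
  have hσ : ∀ (τ : F →+* ℂ) (p : 𝓞 F × Fin K),
      τ ((φ p : 𝓞 F) : F) = τ (p.1 : F) + ((((p.2 : ℕ) * m : ℕ) : ℕ) : ℂ) := by
    intro τ p
    rw [hcoe, map_add, map_natCast]
  have hmaps : φ '' (A ×ˢ (Set.univ : Set (Fin K))) ⊆ {a : 𝓞 F | Bd (a : F) (2 * R)} := by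
    rintro _ ⟨p, hp, rfl⟩ τ
    rw [hσ]
    have h1 : ‖τ (p.1 : F)‖ ≤ R := hp.1.1 τ
    have h2 : ‖((((p.2 : ℕ) * m : ℕ) : ℕ) : ℂ)‖ ≤ R := by
      rw [Complex.norm_natCast]
      refine le_trans ?_ hKm
      push_cast
      have : ((p.2 : ℕ) : ℝ) ≤ K := by exact_mod_cast p.2.2.le
      exact mul_le_mul_of_nonneg_right this (Nat.cast_nonneg _)
    exact (norm_add_le _ _).trans (by linarith)
  have hmpos : (0 : ℝ) < m := lt_of_lt_of_le (by positivity) hm1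
  have hinj : Set.InjOn φ (A ×ˢ (Set.univ : Set (Fin K))) := by
    rintro ⟨a, i⟩ hp ⟨a', j⟩ hq h
    have hpa : a ∈ A := hp.1
    have hqa : a' ∈ A := hq.1
    have hs : σ ((φ (a, i) : 𝓞 F) : F) = σ ((φ (a', j) : 𝓞 F) : F) := by rw [h]
    rw [hσ, hσ] at hs
    have hij : (i : ℕ) = (j : ℕ) := by
      by_contra hne
      have h1 : ‖σ (a : F) - σ (a' : F)‖ < 2 * δ * R := by
        calc ‖σ (a : F) - σ (a' : F)‖ = ‖(σ (a : F) - z) - (σ (a' : F) - z)‖ := by ring_nf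
          _ ≤ ‖σ (a : F) - z‖ + ‖σ (a' : F) - z‖ := norm_sub_le _ _
          _ < δ * R + δ * R := add_lt_add hpa.2 hqa.2
          _ = _ := by ring
      have h2 : σ (a : F) - σ (a' : F) = ((((j : ℕ) : ℤ) - ((i : ℕ) : ℤ)) * (m : ℤ) : ℤ) := by
        push_cast at hs ⊢
        linear_combination hs
      rw [h2, Complex.norm_intCast] at h1
      have h3 : (1 : ℝ) ≤ |((((j : ℕ) : ℤ) - ((i : ℕ) : ℤ) : ℤ) : ℝ)| := by
        have h4 : (((j : ℕ) : ℤ) - ((i : ℕ) : ℤ) : ℤ) ≠ 0 := by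
          intro h5
          exact hne (by omega)
        have h5 := Int.one_le_abs h4
        exact_mod_cast h5
      have h4 : (m : ℝ) ≤ |(((((j : ℕ) : ℤ) - ((i : ℕ) : ℤ)) * (m : ℤ) : ℤ) : ℝ)| := by
        rw [Int.cast_mul, abs_mul]
        have h5 : |(((m : ℕ) : ℤ) : ℝ)| = m := by
          rw [Int.cast_natCast, abs_of_pos hmpos]
        rw [h5]
        nlinarith
      linarith
    have hij' : i = j := Fin.ext hij
    subst hij'
    have h6 : a = a' := by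
      have h7 : a + ((((i : ℕ) * m : ℕ)) : 𝓞 F) = a' + ((((i : ℕ) * m : ℕ)) : 𝓞 F) := h
      exact add_right_cancel h7
    rw [h6]
  have hcard : (A.ncard : ℝ) * K ≤ C * ((2 * R) ^ d + 1) := by
    have h1 : (φ '' (A ×ˢ (Set.univ : Set (Fin K)))).ncard = A.ncard * K := by
      rw [Set.InjOn.ncard_image hinj, Set.ncard_prod, Set.ncard_univ, Nat.card_eq_fintype_card,
        Fintype.card_fin]
    have h2 := Set.ncard_le_ncard hmaps hTf
    rw [h1] at h2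
    have h3 : ((A.ncard * K : ℕ) : ℝ) ≤ (({a : 𝓞 F | Bd (a : F) (2 * R)}.ncard : ℕ) : ℝ) := by
      exact_mod_cast h2
    push_cast at h3
    exact h3.trans hTc
  have h1 : (1 : ℝ) ≤ (2 * R) ^ d := one_le_pow₀ (by linarith)
  have h2 : (A.ncard : ℝ) * K ≤ (ε * R ^ d) * K := by
    calc (A.ncard : ℝ) * K ≤ C * ((2 * R) ^ d + 1) := hcard
      _ ≤ C * ((2 * R) ^ d + (2 * R) ^ d) := by gcongr
      _ = (2 * C * 2 ^ d) * R ^ d := by rw [mul_pow]; ring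
      _ ≤ (ε * K) * R ^ d := mul_le_mul_of_nonneg_right hKe (by positivity)
      _ = _ := by ring
  exact le_of_mul_le_mul_right h2 hK0

end Pool.Agent.N27.CF
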